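import Pool.Agent.Helper6.AK.DGoals

/-! Packet SM: second moment over `y z ^ j`. -/

set_option linter.unusedSectionVars false

namespace Pool.Agent.Helper99.AK.SM

open Matrix Equiv Pool.Agent.Helper15.An Pool.Agent.Helper6.FixK Pool.Agent.Helper6.T5
open scoped ComplexOrder

variable {n : ℕ}

theorem four_shift {D : ℕ} {ρ : Perm (Fin n) →* Matrix (Fin D) (Fin D) ℂ} (f : Alt n → ℝ)
    (w : Alt n) :
    four ρ (fun g => f (g * w)) = four ρ f * ρ ((w⁻¹ : Alt n) : Perm (Fin n)) := by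
  unfold four
  rw [Finset.sum_mul, ← Equiv.sum_comp (Equiv.mulRight w⁻¹) (fun g : Alt n =>
    f (g * w) • ρ (g : Perm (Fin n)))]
  refine Finset.sum_congr rfl fun g _ => ?_
  rw [Equiv.coe_mulRight, Matrix.smul_mul, ← map_mul, ← Subgroup.coe_mul, inv_mul_cancel_right]

theorem corr (F : PW (Perm (Fin n))) (z : Alt n) (J : ℕ) (η : ℝ) (hη : 0 ≤ η)
    (hχ : ∀ i, ¬ Triv (F.ρ i) (Alt n) → ∀ m : ℕ, 0 < m → m < J →
      ‖trace (F.ρ i ((z : Perm (Fin n)) ^ m))‖ ≤ η * F.D i)
    (f : Alt n → ℝ) (hsum : ∑ g, f g = 0) (hf : ∀ (σ : Perm (Fin n)) (g h : Alt n),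
      (h : Perm (Fin n)) = σ * g * σ⁻¹ → f h = f g) {j j' : ℕ} (hj : j < j') (hJ : j' < J) :
    ∑ y, f (y * z ^ j) * f (y * z ^ j') ≤ η * ∑ y, f y ^ 2 := by
  have hG : (0 : ℝ) < Fintype.card (Perm (Fin n)) := by exact_mod_cast Fintype.card_pos
  choose c hc using fun i => four_class (F.irr i) f hf
  have h1 : (Fintype.card (Perm (Fin n)) : ℝ) *
      ∑ y, f (y * z ^ j) * f (y * z ^ j') = ∑ i, (F.D i : ℝ) * (‖c i‖ ^ 2 *
        (trace (F.ρ i ((z : Perm (Fin n)) ^ (j' - j)))).re) := by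
    have h2 := parseval F (fun y => f (y * z ^ j)) (fun y => f (y * z ^ j'))
    rw [← h2]
    refine Finset.sum_congr rfl fun i _ => ?_
    have hu := (F.irr i).unit
    rw [four_shift, four_shift, hc i, conjTranspose_mul, rho_conj (F.ρ i) hu, conjTranspose_smul,
      conjTranspose_one]
    have e1 : (c i • (1 : Matrix (Fin (F.D i)) (Fin (F.D i)) ℂ)) *
        F.ρ i (((z ^ j)⁻¹ : Alt n) : Perm (Fin n)) *
        (F.ρ i ((((z ^ j')⁻¹ : Alt n) : Perm (Fin n))⁻¹) * (star (c i) • 1)) =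
        ((‖c i‖ ^ 2 : ℝ) : ℂ) • F.ρ i ((z : Perm (Fin n)) ^ (j' - j)) := by
      rw [Matrix.mul_smul, Matrix.mul_one, Matrix.smul_mul, Matrix.one_mul, Matrix.smul_mul,
        Matrix.mul_smul, smul_smul, ← map_mul]
      have e2 : (((z ^ j)⁻¹ : Alt n) : Perm (Fin n)) * ((((z ^ j')⁻¹ : Alt n) : Perm (Fin n))⁻¹) =
          (z : Perm (Fin n)) ^ (j' - j) := by
        push_cast
        rw [inv_inv, pow_sub _ hj.le]
        exact (Commute.pow_pow_self _ _ _).inv_left
      rw [e2, Complex.star_def, Complex.mul_conj, Complex.normSq_eq_norm_sq]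
    rw [e1, trace_smul, smul_eq_mul, Complex.re_ofReal_mul]
  have h3 : (Fintype.card (Perm (Fin n)) : ℝ) * ∑ y, f y ^ 2 =
      ∑ i, (F.D i : ℝ) * (‖c i‖ ^ 2 * F.D i) := by
    have h2 := parseval F f f
    simp_rw [sq]
    rw [← h2]
    refine Finset.sum_congr rfl fun i _ => ?_
    have h4 := trace_scalar (c i) (1 : Matrix (Fin (F.D i)) (Fin (F.D i)) ℂ)
      Matrix.isHermitian_one 0
    rw [one_pow, Matrix.mul_one, trace_one, Fintype.card_fin,
      Complex.natCast_re, sq] at h4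
    rw [hc i, h4]
  have h4 : ∀ i, (F.D i : ℝ) * (‖c i‖ ^ 2 * (trace (F.ρ i ((z : Perm (Fin n)) ^ (j' - j)))).re) ≤
      η * ((F.D i : ℝ) * (‖c i‖ ^ 2 * F.D i)) := by
    intro i
    by_cases ht : Triv (F.ρ i) (Alt n)
    · have hM0 : four (F.ρ i) f = 0 := by
        unfold four
        have h3 : ∀ g : Alt n, f g • F.ρ i (g : Perm (Fin n)) =
            f g • (1 : Matrix (Fin (F.D i)) (Fin (F.D i)) ℂ) := fun g => by rw [ht g]
        simp_rw [h3]
        rw [← Finset.sum_smul, hsum, zero_smul]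
      have hc0 : c i = 0 := by
        have h5 := hc i
        rw [hM0] at h5
        have h6 := congrFun (congrFun h5 ⟨0, (F.irr i).pos⟩) ⟨0, (F.irr i).pos⟩
        simpa using h6.symm
      rw [hc0]; simp
    · have h5 := ((Complex.re_le_norm _).trans (hχ i ht (j' - j) (by omega) (by omega)))
      have h6 : (0 : ℝ) ≤ (F.D i : ℝ) * ‖c i‖ ^ 2 := by positivity
      have h7 := mul_le_mul_of_nonneg_left h5 h6
      calc _ = (F.D i : ℝ) * ‖c i‖ ^ 2 * (trace (F.ρ i ((z : Perm (Fin n)) ^ (j' - j)))).re := by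
            ring
        _ ≤ _ := h7
        _ = _ := by ring
  refine le_of_mul_le_mul_left ?_ hG
  rw [h1]
  refine (Finset.sum_le_sum fun i _ => h4 i).trans (le_of_eq ?_)
  rw [← Finset.mul_sum, ← h3]
  ring

theorem thm : Pool.Agent.Helper6.AK.S_SM := by
  classical
  intro n F hn z J hJ η hη hχ E hcl B hB
  rcases E.eq_empty_or_nonempty with hE | hE
  · subst hE
    simp only [Finset.card_empty, Nat.cast_zero, mul_zero]
    positivity
  set N : ℝ := (Fintype.card (Alt n) : ℝ) with hN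
  have hN0 : 0 < N := card_pos' (Alt n)
  set p : ℝ := E.card / N with hp
  have hE0 : (0 : ℝ) < E.card := by exact_mod_cast hE.card_pos
  have hp0 : 0 < p := by positivity
  set u : Alt n → ℝ := fun g => if g ∈ E then 1 else 0 with hu
  set f : Alt n → ℝ := fun g => u g - p with hfdef
  have hsumu : ∑ g, u g = E.card := by
    rw [hu]
    simp
  have hcardN : ((Finset.univ : Finset (Alt n)).card : ℝ) = N := by
    rw [Finset.card_univ]
  have hsum : ∑ g, f g = 0 := by
    rw [hfdef, Finset.sum_sub_distrib, hsumu, Finset.sum_const, nsmul_eq_mul, hcardN, hp]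
    field_simp
    ring
  have hsq : ∑ g, f g ^ 2 ≤ E.card := by
    have h1 : ∀ g, f g ^ 2 = u g - 2 * p * u g + p ^ 2 := by
      intro g
      have h2 : u g ^ 2 = u g := by
        rw [hu]
        by_cases h : g ∈ E <;> simp [h]
      rw [hfdef]
      simp only
      rw [sub_sq, h2]
      ring
    simp_rw [h1]
    rw [Finset.sum_add_distrib, Finset.sum_sub_distrib, ← Finset.mul_sum, hsumu,
      Finset.sum_const, nsmul_eq_mul, hcardN]
    have h3 : p * N = E.card := by rw [hp]; field_simp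
    have h4 : N * p ^ 2 = p * E.card := by rw [← h3]; ring
    rw [h4]
    have : 0 ≤ p * E.card := by positivity
    linarith
  have hf : ∀ (σ : Perm (Fin n)) (g h : Alt n), (h : Perm (Fin n)) = σ * g * σ⁻¹ →
      f h = f g := by
    intro σ g h hh
    have h1 : g ∈ E ↔ h ∈ E := by
      refine ⟨hcl σ g h hh, hcl σ⁻¹ h g ?_⟩
      rw [hh]; group
    rw [hfdef]
    simp only [hu, h1]
  have hsq0 : 0 ≤ ∑ g, f g ^ 2 := Finset.sum_nonneg fun _ _ => sq_nonneg _
  -- the pair correlations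
  have hC : ∀ j ∈ Finset.range J, ∀ j' ∈ Finset.range J,
      ∑ y, f (y * z ^ j) * f (y * z ^ j') ≤ (if j = j' then (E.card : ℝ) else 0) + η * E.card := by
    intro j hj j' hj'
    rw [Finset.mem_range] at hj hj'
    have hηE : η * ∑ g, f g ^ 2 ≤ η * E.card := mul_le_mul_of_nonneg_left hsq hη
    have hηE0 : 0 ≤ η * (E.card : ℝ) := by positivity
    rcases lt_trichotomy j j' with h | h | h
    · rw [if_neg h.ne, zero_add]
      exact (corr F z J η hη hχ f hsum hf h hj').trans hηE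
    · subst h
      rw [if_pos rfl]
      have e1 : ∑ y, f (y * z ^ j) * f (y * z ^ j) = ∑ y, f y ^ 2 := by
        rw [← Equiv.sum_comp (Equiv.mulRight (z ^ j)) (fun y : Alt n => f y ^ 2)]
        refine Finset.sum_congr rfl fun y _ => ?_
        rw [Equiv.coe_mulRight, sq]
      rw [e1]
      linarith
    · rw [if_neg h.ne', zero_add]
      refine le_trans (le_of_eq ?_) ((corr F z J η hη hχ f hsum hf h hj).trans hηE)
      exact Finset.sum_congr rfl fun y _ => mul_comm _ _
  have htot : ∑ y, (∑ j ∈ Finset.range J, f (y * z ^ j)) ^ 2 ≤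
      J * E.card + (J : ℝ) ^ 2 * (η * E.card) := by
    have e1 : ∑ y, (∑ j ∈ Finset.range J, f (y * z ^ j)) ^ 2 =
        ∑ j ∈ Finset.range J, ∑ j' ∈ Finset.range J, ∑ y, f (y * z ^ j) * f (y * z ^ j') := by
      simp_rw [sq, Finset.sum_mul_sum]
      rw [Finset.sum_comm]
      refine Finset.sum_congr rfl fun j _ => ?_
      rw [Finset.sum_comm]
    rw [e1]
    refine (Finset.sum_le_sum fun j hj => Finset.sum_le_sum fun j' hj' => hC j hj j' hj').trans
      (le_of_eq ?_)
    have e2 : ∀ j ∈ Finset.range J, ∑ j' ∈ Finset.range J,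
        ((if j = j' then (E.card : ℝ) else 0) + η * E.card) = E.card + J * (η * E.card) := by
      intro j hj
      rw [Finset.sum_add_distrib, Finset.sum_ite_eq, if_pos hj, Finset.sum_const,
        Finset.card_range, nsmul_eq_mul]
    rw [Finset.sum_congr rfl e2, Finset.sum_const, Finset.card_range, nsmul_eq_mul]
    ring
  have hlow : (B.card : ℝ) * (J * p) ^ 2 ≤ ∑ y, (∑ j ∈ Finset.range J, f (y * z ^ j)) ^ 2 := by
    rw [← nsmul_eq_mul]
    refine (Finset.card_nsmul_le_sum B (fun y => (∑ j ∈ Finset.range J, f (y * z ^ j)) ^ 2)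
      ((J * p) ^ 2) fun y hy => ?_).trans
      (Finset.sum_le_sum_of_subset_of_nonneg (Finset.subset_univ B) fun _ _ _ => sq_nonneg _)
    have e1 : ∑ j ∈ Finset.range J, f (y * z ^ j) = -(J * p) := by
      have e2 : ∀ j ∈ Finset.range J, f (y * z ^ j) = -p := by
        intro j hj
        have e3 : u (y * z ^ j) = 0 := by
          rw [hu]
          exact if_neg (hB y hy j (Finset.mem_range.1 hj))
        rw [hfdef]
        simp only
        rw [e3, zero_sub]
      rw [Finset.sum_congr rfl e2, Finset.sum_const, Finset.card_range, nsmul_eq_mul]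
      ring
    rw [e1, neg_sq]
  have hJ0 : (0 : ℝ) < J := by exact_mod_cast hJ
  have h1 := hlow.trans htot
  have hpN : p * N = E.card := by rw [hp]; field_simp
  -- multiply by N ^ 2 / J ^ 2
  have h2 : ((B.card : ℝ) * E.card) * E.card * (J : ℝ) ^ 2 ≤
      (N ^ 2 * (1 / J + η)) * E.card * (J : ℝ) ^ 2 := by
    have h3 := mul_le_mul_of_nonneg_right h1 (sq_nonneg N)
    have h4 : (B.card : ℝ) * (J * p) ^ 2 * N ^ 2 =
        ((B.card : ℝ) * E.card) * E.card * (J : ℝ) ^ 2 := by
      rw [← hpN]; ring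
    rw [h4] at h3
    refine h3.trans (le_of_eq ?_)
    field_simp
  have h5 : (0 : ℝ) < (J : ℝ) ^ 2 := by positivity
  exact le_of_mul_le_mul_right (le_of_mul_le_mul_right h2 h5) hE0

end Pool.Agent.Helper99.AK.SM
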